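import Mathlib
import Pool.Agent.H743R3.Nary

set_option autoImplicit false

namespace Pool.Agent.Results.MP_6d0d7d_lc.CanonisationIff

open Pool.Agent.H743R3 Filter

universe v

/-- The topology of pointwise convergence on `Sym(X)`, `X` discrete. -/
@[reducible] def ptTop (X : Type) : TopologicalSpace (Equiv.Perm X) :=
  TopologicalSpace.induced (fun (σ : Equiv.Perm X) (x : X) => σ x)
    (@Pi.topologicalSpace X (fun _ => X) (fun _ => ⊥))

/-- The topology of pointwise convergence on `Y^X`, `Y` discrete. -/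
@[reducible] def mapTop (X Y : Type) : TopologicalSpace (X → Y) :=
  @Pi.topologicalSpace X (fun _ => Y) (fun _ => ⊥)

/-- The subspace topology of a permutation group `G ≤ Sym(X)`. -/
@[reducible] def subTop {X : Type} (G : Subgroup (Equiv.Perm X)) : TopologicalSpace G :=
  TopologicalSpace.induced (fun g : G => (g : Equiv.Perm X)) (ptTop X)

/-- Each continuous action of `G` on a nonempty compact Hausdorff space has a fixed point. -/
def ExtremelyAmenable {X : Type} (G : Subgroup (Equiv.Perm X)) : Prop :=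
  ∀ (K : Type v) [TopologicalSpace K] [CompactSpace K] [T2Space K] [Nonempty K] [MulAction G K],
    @Continuous (G × K) K (@instTopologicalSpaceProd G K (subTop G) _) _ (fun p => p.1 • p.2) →
    ∃ x : K, ∀ g : G, g • x = x

/-- The componentwise action of `H` on `Y^n` has only finitely many orbits, for every `n ≥ 1`. -/
def Oligomorphic {Y : Type} (H : Subgroup (Equiv.Perm Y)) : Prop :=
  ∀ n : ℕ, 1 ≤ n → ∃ S : Finset (Fin n → Y), ∀ y : Fin n → Y, ∃ s ∈ S, ∃ h ∈ H, ∀ i, y i = h (s i)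

/-- `f` is canonical with respect to `G` and `H`. -/
def Canonical {X Y : Type} (G : Subgroup (Equiv.Perm X)) (H : Subgroup (Equiv.Perm Y))
    (f : X → Y) : Prop :=
  ∀ n : ℕ, 1 ≤ n → ∀ a : Fin n → X, ∀ α ∈ G, ∃ β ∈ H, ∀ i, f (α (a i)) = β (f (a i))

/-- The set `H f G` of all `β ∘ f ∘ α`. -/
def orbitSet {X Y : Type} (G : Subgroup (Equiv.Perm X)) (H : Subgroup (Equiv.Perm Y))
    (f : X → Y) : Set (X → Y) :=
  {g | ∃ β ∈ H, ∃ α ∈ G, g = fun x => β (f (α x))}

/-- The canonisation property. -/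
def Canonisation {X : Type} (G : Subgroup (Equiv.Perm X)) : Prop :=
  ∀ (Y : Type) (H : Subgroup (Equiv.Perm Y)), Oligomorphic H → ∀ f : X → Y,
    ∃ g ∈ @closure (X → Y) (mapTop X Y) (orbitSet G H f), Canonical G H g

/-! ### Auxiliary facts on the topologies -/

theorem mem_closure_iff_fin {X Y : Type} (S : Set (X → Y)) (g : X → Y) :
    g ∈ @closure (X → Y) (mapTop X Y) S ↔ ∀ F : Finset X, ∃ h ∈ S, ∀ x ∈ F, h x = g x := by
  let _ : TopologicalSpace Y := ⊥
  have : DiscreteTopology Y := ⟨rfl⟩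
  change g ∈ closure S ↔ _
  rw [mem_closure_iff]
  constructor
  · intro h F
    obtain ⟨y, hy1, hy2⟩ := h {y | ∀ x ∈ F, y x = g x} (by
      have : {y : X → Y | ∀ x ∈ F, y x = g x} = ⋂ x ∈ F, (fun y : X → Y => y x) ⁻¹' {g x} := by
        ext y; simp
      rw [this]
      apply isOpen_biInter_finset
      intro x _
      exact (isOpen_discrete _).preimage (continuous_apply x)) (by
      intro x _; rfl)
    exact ⟨y, hy2, hy1⟩
  · intro h o ho hgo
    obtain ⟨I, u, hu1, hu2⟩ := isOpen_pi_iff.1 ho g hgo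
    obtain ⟨y, hy1, hy2⟩ := h I
    refine ⟨y, hu2 ?_, hy1⟩
    intro x hx
    rw [hy2 x hx]
    exact (hu1 x hx).2

theorem isOpen_stab {X : Type} (G : Subgroup (Equiv.Perm X)) {n : ℕ} (a b : Fin n → X) :
    @IsOpen G (subTop G) {g : G | ∀ i, (g : Equiv.Perm X) (b i) = a i} := by
  let _ : TopologicalSpace X := ⊥
  have : DiscreteTopology X := ⟨rfl⟩
  let _ : TopologicalSpace (Equiv.Perm X) := ptTop X
  let _ : TopologicalSpace G := subTop G
  have hc : ∀ x : X, Continuous (fun g : G => (g : Equiv.Perm X) x) := by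
    intro x
    have h1 : Continuous (fun g : G => (g : Equiv.Perm X)) := continuous_induced_dom
    have h2 : Continuous (fun (σ : Equiv.Perm X) (x : X) => σ x) := continuous_induced_dom
    exact (continuous_apply x).comp (h2.comp h1)
  have : {g : G | ∀ i, (g : Equiv.Perm X) (b i) = a i} =
      ⋂ i, (fun g : G => (g : Equiv.Perm X) (b i)) ⁻¹' {a i} := by
    ext g; simp
  rw [this]
  apply isOpen_iInter_of_finite
  intro i
  exact (isOpen_discrete _).preimage (hc _)

theorem nhds_one {X : Type} (G : Subgroup (Equiv.Perm X)) (V : Set G)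
    (hV : V ∈ @nhds G (subTop G) 1) : ∃ I : Finset X, ∀ g : G, (∀ x ∈ I, (g : Equiv.Perm X) x = x) →
      g ∈ V := by
  let _ : TopologicalSpace X := ⊥
  have : DiscreteTopology X := ⟨rfl⟩
  have hsub : subTop G = TopologicalSpace.induced (fun (g : G) (x : X) => (g : Equiv.Perm X) x)
      (Pi.topologicalSpace) := by
    unfold subTop ptTop
    rw [induced_compose]
    rfl
  rw [hsub, nhds_induced, Filter.mem_comap] at hV
  obtain ⟨u, hu, huV⟩ := hV
  rw [mem_nhds_iff] at hu
  obtain ⟨o, ho1, ho2, ho3⟩ := hu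
  obtain ⟨I, w, hw1, hw2⟩ := isOpen_pi_iff.1 ho2 _ ho3
  refine ⟨I, fun g hg => huV (ho1 (hw2 ?_))⟩
  intro x hx
  simp only
  rw [hg x hx]
  exact (hw1 x hx).2

/-! ### Extreme amenability gives canonisation -/

section Forward

variable {X Y : Type} (G : Subgroup (Equiv.Perm X)) (H : Subgroup (Equiv.Perm Y)) (f : X → Y)

/-- same `H`-orbit of tuples -/
def orbSetoid (n : ℕ) : Setoid (Fin n → Y) where
  r y z := ∃ h ∈ H, ∀ i, z i = h (y i)
  iseqv := {
    refl := fun y => ⟨1, H.one_mem, fun i => rfl⟩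
    symm := by
      rintro y z ⟨h, hh, e⟩
      exact ⟨h⁻¹, H.inv_mem hh, fun i => by rw [e i]; simp⟩
    trans := by
      rintro y z w ⟨h, hh, e⟩ ⟨h', hh', e'⟩
      exact ⟨h' * h, H.mul_mem hh' hh, fun i => by rw [e' i, e i]; rfl⟩ }

def Orb (n : ℕ) : Type := Quotient (orbSetoid H n)

instance (n : ℕ) : TopologicalSpace (Orb H n) := ⊥

instance (n : ℕ) : DiscreteTopology (Orb H n) := ⟨rfl⟩

def mkO {n : ℕ} (y : Fin n → Y) : Orb H n := Quotient.mk (orbSetoid H n) y

theorem mkO_eq {n : ℕ} {y z : Fin n → Y} : mkO H y = mkO H z ↔ ∃ h ∈ H, ∀ i, z i = h (y i) :=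
  Quotient.eq (r := orbSetoid H n)

theorem finite_orb (hH : Oligomorphic H) (n : ℕ) : Finite (Orb H n) := by
  classical
  rcases Nat.eq_zero_or_pos n with rfl | hn
  · have : Subsingleton (Orb H 0) := by
      constructor
      intro a b
      induction a using Quotient.inductionOn with
      | _ a =>
      induction b using Quotient.inductionOn with
      | _ b =>
      exact congrArg _ (Subsingleton.elim a b)
    exact inferInstance
  · obtain ⟨S, hS⟩ := hH n hn
    have : Function.Surjective (fun s : S => mkO H s.1) := by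
      intro o
      induction o using Quotient.inductionOn with
      | _ y =>
      obtain ⟨s, hs, h, hh, e⟩ := hS y
      exact ⟨⟨s, hs⟩, (mkO_eq H).2 ⟨h, hh, e⟩⟩
    exact Finite.of_surjective _ this

/-- the product of all orbit spaces, indexed by the tuples of `X` -/
abbrev T := (a : Σ n : ℕ, Fin n → X) → Orb H a.1

/-- the compact space of limit types -/
def K0 : Set (T (X := X) H) :=
  {τ | ∀ F : Finset (Σ n : ℕ, Fin n → X), ∃ α ∈ G, ∀ a ∈ F, τ a = mkO H (fun i => f (α (a.2 i)))}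

theorem isClosed_K0 : IsClosed (K0 G H f) := by
  have : K0 G H f = ⋂ F : Finset (Σ n : ℕ, Fin n → X), ((fun (τ : T (X := X) H) (a : F) => τ a.1) ⁻¹'
      {σ | ∃ α ∈ G, ∀ a : F, σ a = mkO H (fun i => f (α (a.1.2 i)))}) := by
    ext τ
    simp only [K0, Set.mem_iInter, Set.mem_preimage, Subtype.forall]
    rfl
  rw [this]
  apply isClosed_iInter
  intro F
  exact (isClosed_discrete _).preimage (by fun_prop)

instance actT : MulAction G (K0 G H f) where
  smul g τ := ⟨fun a => τ.1 ⟨a.1, fun i => (g⁻¹ : G).1 (a.2 i)⟩, by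
    intro F
    classical
    obtain ⟨α, hα, h⟩ := τ.2 (F.image (fun a : (Σ n : ℕ, Fin n → X) =>
      (⟨a.1, fun i => (g⁻¹ : G).1 (a.2 i)⟩ : Σ n : ℕ, Fin n → X)))
    refine ⟨α * (g⁻¹ : G).1, G.mul_mem hα (g⁻¹ : G).2, ?_⟩
    intro a ha
    exact h _ (Finset.mem_image_of_mem _ ha)⟩
  one_smul τ := by
    apply Subtype.ext
    funext a
    rfl
  mul_smul g g' τ := by
    apply Subtype.ext
    funext a
    rfl

theorem smul_apply (g : G) (τ : K0 G H f) (a : Σ n : ℕ, Fin n → X) :
    (g • τ).1 a = τ.1 ⟨a.1, fun i => (g⁻¹ : G).1 (a.2 i)⟩ := rfl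

theorem continuous_act : @Continuous (G × K0 G H f) (K0 G H f)
    (@instTopologicalSpaceProd G (K0 G H f) (subTop G) _) _ (fun p => p.1 • p.2) := by
  let _ : TopologicalSpace G := subTop G
  apply Continuous.subtype_mk
  refine continuous_pi (A := fun a : (Σ n : ℕ, Fin n → X) => Orb H a.1) (fun b => ?_)
  obtain ⟨n, a⟩ := b
  rw [continuous_discrete_rng]
  intro c
  have : (fun p : G × K0 G H f => (p.2.1 ⟨n, fun i => (p.1⁻¹ : G).1 (a i)⟩ : Orb H n)) ⁻¹' {c} =
      ⋃ b : Fin n → X, {g : G | ∀ i, (g : Equiv.Perm X) (b i) = a i} ×ˢ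
        {τ : K0 G H f | τ.1 ⟨n, b⟩ = c} := by
    ext ⟨g, τ⟩
    simp only [Set.mem_preimage, Set.mem_singleton_iff, Set.mem_iUnion, Set.mem_prod]
    constructor
    · intro h
      refine ⟨fun i => (g⁻¹ : G).1 (a i), ?_, h⟩
      intro i
      simp
    · rintro ⟨b, h1, h2⟩
      have : (fun i => (g⁻¹ : G).1 (a i)) = b := by
        funext i
        rw [← h1 i]
        simp
      rw [this]
      exact h2
  refine (congrArg IsOpen this).mpr ?_
  apply isOpen_iUnion
  intro b
  apply IsOpen.prod (isOpen_stab G a b)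
  have hc : Continuous (fun τ : K0 G H f => τ.1 ⟨n, b⟩) :=
    (continuous_apply (A := fun a : (Σ n : ℕ, Fin n → X) => Orb H a.1)
      (⟨n, b⟩ : Σ n : ℕ, Fin n → X)).comp continuous_subtype_val
  exact (isOpen_discrete {c}).preimage hc

theorem exists_seq {Z : Type} [Nonempty Z] (P : ℕ → (ℕ → Z) → Prop)
    (hP : ∀ n y y', (∀ i < n, y i = y' i) → P n y → P n y') (h0 : ∀ y, P 0 y)
    (hs : ∀ n y, P n y → ∃ z, P (n + 1) (Function.update y n z)) : ∃ y, ∀ n, P n y := by
  choose! z hz using hs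
  let Y : ℕ → (ℕ → Z) := fun n => Nat.rec (fun _ => Classical.arbitrary Z)
    (fun k y => Function.update y k (z k y)) n
  have hY : ∀ n, Y (n + 1) = Function.update (Y n) n (z n (Y n)) := fun n => rfl
  have hPY : ∀ n, P n (Y n) := by
    intro n
    induction n with
    | zero => exact h0 _
    | succ n ih => rw [hY]; exact hz n _ ih
  have hst : ∀ n i, i < n → Y n i = Y (i + 1) i := by
    intro n
    induction n with
    | zero => intro i hi; omega
    | succ n ih =>
      intro i hi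
      rcases Nat.lt_succ_iff_lt_or_eq.1 hi with h | h
      · rw [hY, Function.update_of_ne h.ne, ih i h]
      · rw [h]
  exact ⟨fun i => Y (i + 1) i, fun n => hP n (Y n) _ (fun i hi => hst n i hi) (hPY n)⟩

theorem forward [Countable X] (hG : ExtremelyAmenable.{v} G) : Canonisation G := by
  classical
  intro Y H hH f
  rcases isEmpty_or_nonempty X with hX | hX
  · refine ⟨f, ?_, ?_⟩
    · rw [mem_closure_iff_fin]
      intro F
      exact ⟨f, ⟨1, H.one_mem, 1, G.one_mem, rfl⟩, fun _ _ => rfl⟩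
    · intro n hn a
      exact (hX.false (a ⟨0, hn⟩)).elim
  have hfin : ∀ n, Finite (Orb H n) := finite_orb H hH
  have hcomp : CompactSpace (K0 G H f) :=
    isCompact_iff_compactSpace.1 (isClosed_K0 G H f).isCompact
  have hne : Nonempty (K0 G H f) :=
    ⟨⟨fun a => mkO H (fun i => f (a.2 i)), fun F => ⟨1, G.one_mem, fun a _ => rfl⟩⟩⟩
  have hcomp' : CompactSpace (ULift.{v} (K0 G H f)) := Homeomorph.ulift.symm.compactSpace
  have hT2 : T2Space (ULift.{v} (K0 G H f)) := Homeomorph.ulift.symm.t2Space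
  have hcont : @Continuous (G × ULift.{v} (K0 G H f)) (ULift.{v} (K0 G H f))
      (@instTopologicalSpaceProd G (ULift.{v} (K0 G H f)) (subTop G) _) _
      (fun p => p.1 • p.2) := by
    let _ : TopologicalSpace G := subTop G
    have h1 : Continuous (fun p : G × ULift.{v} (K0 G H f) => (p.1, p.2.down)) :=
      continuous_fst.prodMk (continuous_uliftDown.comp continuous_snd)
    exact continuous_uliftUp.comp ((continuous_act G H f).comp h1)
  obtain ⟨⟨τ⟩, hτ⟩ := hG (ULift.{v} (K0 G H f)) hcont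
  have hfix : ∀ (g : G) (a : Σ n : ℕ, Fin n → X),
      τ.1 ⟨a.1, fun i => (g : Equiv.Perm X) (a.2 i)⟩ = τ.1 a := by
    intro g a
    have h1 : g⁻¹ • τ = τ := congrArg ULift.down (hτ g⁻¹)
    have h2 := congrArg (fun t : K0 G H f => t.1 a) h1
    simp only [smul_apply] at h2
    exact h2
  obtain ⟨e, he⟩ := exists_surjective_nat X
  have hYne : Nonempty Y := ⟨f (e 0)⟩
  -- the sequence of values
  obtain ⟨y, hy⟩ := exists_seq (Z := Y)
    (fun n y => mkO H (fun i : Fin n => y i) = τ.1 ⟨n, fun i : Fin n => e i⟩) (by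
      intro n y y' h1 h2
      have : (fun i : Fin n => y' i) = fun i : Fin n => y i := by
        funext i; exact (h1 i i.2).symm
      rw [this]; exact h2) (by
      intro y
      obtain ⟨α, _, h⟩ := τ.2 {⟨0, fun i : Fin 0 => e i⟩}
      rw [h _ (Finset.mem_singleton_self _)]
      congr 1
      exact Subsingleton.elim _ _) (by
      intro n y hy
      obtain ⟨α, hα, h⟩ := τ.2 {⟨n, fun i : Fin n => e i⟩, ⟨n + 1, fun i : Fin (n + 1) => e i⟩}
      have h1 := h ⟨n, fun i : Fin n => e i⟩ (by simp)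
      have h2 := h ⟨n + 1, fun i : Fin (n + 1) => e i⟩ (by simp)
      rw [h1] at hy
      obtain ⟨k, hk, hk2⟩ := (mkO_eq H).1 hy.symm
      refine ⟨k (f (α (e n))), ?_⟩
      rw [h2]
      symm
      rw [mkO_eq]
      refine ⟨k, hk, ?_⟩
      intro i
      by_cases hi : (i : ℕ) = n
      · simp [hi]
      · have hlt' : (i : ℕ) < n + 1 := i.2
        have hlt : (i : ℕ) < n := by omega
        rw [Function.update_of_ne hi]
        exact hk2 ⟨i, hlt⟩)
  -- general consequence
  have key : ∀ (N : ℕ) (a : Σ n : ℕ, Fin n → X), ∃ k ∈ H, ∃ α ∈ G,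
      (∀ i < N, y i = k (f (α (e i)))) ∧ τ.1 a = mkO H (fun i => f (α (a.2 i))) := by
    intro N a
    obtain ⟨α, hα, h⟩ := τ.2 {a, ⟨N, fun i : Fin N => e i⟩}
    have h1 := h a (by simp)
    have h2 := h ⟨N, fun i : Fin N => e i⟩ (by simp)
    have h3 := hy N
    rw [h2] at h3
    obtain ⟨k, hk, hk2⟩ := (mkO_eq H).1 h3.symm
    exact ⟨k, hk, α, hα, fun i hi => hk2 ⟨i, hi⟩, h1⟩
  choose m hm using he
  have hyg : ∀ i, y (m (e i)) = y i := by
    intro i
    obtain ⟨k, _, α, _, h, _⟩ := key (max (m (e i)) i + 1) ⟨0, fun i : Fin 0 => e i⟩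
    rw [h _ (by omega), h i (by omega), hm]
  refine ⟨fun x => y (m x), ?_, ?_⟩
  · rw [mem_closure_iff_fin]
    intro F
    obtain ⟨k, hk, α, hα, h, _⟩ := key (F.sup m + 1) ⟨0, fun i : Fin 0 => e i⟩
    refine ⟨fun x => k (f (α x)), ⟨k, hk, α, hα, rfl⟩, ?_⟩
    intro x hx
    have hle : m x ≤ F.sup m := Finset.le_sup hx
    rw [h (m x) (by omega), hm]
  · have htype : ∀ (n : ℕ) (a : Fin n → X), mkO H (fun i => y (m (a i))) = τ.1 ⟨n, a⟩ := by
      intro n a
      obtain ⟨k, hk, α, hα, h, h'⟩ := key (Finset.univ.sup (fun i => m (a i)) + 1) ⟨n, a⟩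
      rw [h']
      symm
      rw [mkO_eq]
      refine ⟨k, hk, fun i => ?_⟩
      have hle : m (a i) ≤ Finset.univ.sup (fun i => m (a i)) :=
        Finset.le_sup (f := fun i => m (a i)) (Finset.mem_univ i)
      rw [h (m (a i)) (by omega), hm]
    intro n _ a α hα
    have h1 := htype n a
    have h2 := htype n (fun i => α (a i))
    have h3 := hfix ⟨α, hα⟩ ⟨n, a⟩
    simp only at h3
    rw [← h1] at h3
    have h4 := h2.trans h3
    obtain ⟨k, hk, hk2⟩ := (mkO_eq H).1 h4.symm
    exact ⟨k, hk, hk2⟩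

end Forward

/-! ### Canonisation gives the Ramsey property and extreme amenability -/

/-- the group of a colouring -/
def autG {n k : ℕ} (M : (Fin n → ℕ) → Fin (k + 1)) : Subgroup (Equiv.Perm ℕ) where
  carrier := {σ | ∀ u : Fin n → ℕ, M (fun i => σ (u i)) = M u}
  one_mem' := fun u => rfl
  mul_mem' := by
    intro σ σ' h h' u
    exact (h (fun i => σ' (u i))).trans (h' u)
  inv_mem' := by
    intro σ h u
    have := h (fun i => σ⁻¹ (u i))
    simp at this
    exact this.symm

theorem oligo_autG {n k : ℕ} {M : (Fin n → ℕ) → Fin (k + 1)} (hM : Nary.EP M) :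
    Oligomorphic (autG M) := by
  classical
  intro m _
  let ty : (Fin m → ℕ) → (Fin m → Fin m → Bool) × ((Fin n → Fin m) → Fin (k + 1)) :=
    fun s => (fun i j => decide (s i = s j), fun v => M (fun i => s (v i)))
  have hrep : ∀ t : (Fin m → Fin m → Bool) × ((Fin n → Fin m) → Fin (k + 1)),
      ∃ s : Fin m → ℕ, (∃ x, ty x = t) → ty s = t := by
    intro t
    by_cases h : ∃ x, ty x = t
    · obtain ⟨x, hx⟩ := h
      exact ⟨x, fun _ => hx⟩
    · exact ⟨fun _ => 0, fun h' => absurd h' h⟩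
  choose rep hrep using hrep
  refine ⟨Finset.univ.image rep, fun x =>
    ⟨rep (ty x), Finset.mem_image_of_mem _ (Finset.mem_univ _), ?_⟩⟩
  have ht : ty (rep (ty x)) = ty x := hrep _ ⟨x, rfl⟩
  obtain ⟨σ, h1, h2⟩ := Nary.homog hM (rep (ty x)) x (by
    intro i j
    have := congrFun (congrFun (congrArg Prod.fst ht) i) j
    simpa [ty] using this) (by
    intro v
    exact congrFun (congrArg Prod.snd ht) v)
  exact ⟨σ, h1, fun i => (h2 i).symm⟩

theorem ramsey {X : Type} [Countable X] {G : Subgroup (Equiv.Perm X)} (hG : Canonisation G)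
    {n k : ℕ} (a : Fin n → X) (c : (Fin n → X) → Fin (k + 1)) (F : Finset (Equiv.Perm X))
    (hF : ∀ g ∈ F, g ∈ G) : ∃ α ∈ G, ∃ r, ∀ g ∈ F, c (fun i => α (g (a i))) = r := by
  classical
  rcases Nat.eq_zero_or_pos n with rfl | hn
  · exact ⟨1, G.one_mem, c a, fun g _ => congrArg c (Subsingleton.elim _ _)⟩
  obtain ⟨M, hM⟩ := Nary.exists_generic n k
  obtain ⟨f, hf⟩ := Nary.exists_embedding (L := c) hn hM
  obtain ⟨g0, hg0, hcan⟩ := hG ℕ (autG M) (oligo_autG hM) f
  rw [mem_closure_iff_fin] at hg0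
  obtain ⟨h, ⟨β, hβ, α, hα, rfl⟩, hh⟩ := hg0 (F.biUnion (fun g => Finset.univ.image (fun i => g (a i))))
  refine ⟨α, hα, M (fun i => g0 (a i)), ?_⟩
  intro g hg
  obtain ⟨β', hβ', h'⟩ := hcan n hn a g (hF g hg)
  have e1 : M (fun i => g0 (g (a i))) = M (fun i => g0 (a i)) := by
    have : (fun i => g0 (g (a i))) = fun i => β' (g0 (a i)) := funext h'
    rw [this]
    exact hβ' _
  have e2 : (fun i => g0 (g (a i))) = fun i => β (f (α (g (a i)))) := by
    funext i
    exact (hh _ (Finset.mem_biUnion.2 ⟨g, hg, Finset.mem_image_of_mem _ (Finset.mem_univ i)⟩)).symm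
  rw [e2] at e1
  rw [← e1, ← hf]
  exact (hβ _).symm

theorem backward {X : Type} [Countable X] (G : Subgroup (Equiv.Perm X)) (hG : Canonisation G) :
    ExtremelyAmenable.{v} G := by
  classical
  intro K _ _ _ _ _ hcont
  let _ : TopologicalSpace G := subTop G
  have hcont' : Continuous (fun p : G × K => p.1 • p.2) := hcont
  have hgc : ∀ g : G, Continuous (fun x : K => g • x) := by
    intro g
    exact hcont'.comp (continuous_const.prodMk continuous_id)
  by_contra hno
  push Not at hno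
  choose γ hγ using hno
  -- neighbourhoods moved off themselves
  have hO : ∀ x : K, ∃ O : Set K, IsOpen O ∧ x ∈ O ∧ ∀ y ∈ O, γ x • y ∉ O := by
    intro x
    obtain ⟨A, B, hA, hB, hxA, hxB, hAB⟩ := t2_separation (hγ x).symm
    refine ⟨A ∩ (fun y => γ x • y) ⁻¹' B, hA.inter (hB.preimage (hgc _)), ⟨hxA, hxB⟩, ?_⟩
    rintro y ⟨_, hy⟩ ⟨hy', _⟩
    exact Set.disjoint_left.1 hAB hy' hy
  choose O hO1 hO2 hO3 using hO
  have hC : ∀ x : K, ∃ D ∈ nhds x, IsClosed D ∧ D ⊆ O x := fun x =>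
    exists_mem_nhds_isClosed_subset ((hO1 x).mem_nhds (hO2 x))
  choose D hD1 hD2 hD3 using hC
  obtain ⟨t, ht⟩ := CompactSpace.elim_nhds_subcover D hD1
  have hV : ∀ᶠ g in nhds (1 : G), ∀ x ∈ t, ∀ y ∈ D x, g • y ∈ O x := by
    rw [Filter.eventually_all_finset]
    intro x _
    apply (hD2 x).isCompact.eventually_forall_of_forall_eventually
    intro y hy
    have h1 : (fun p : G × K => p.1 • p.2) ⁻¹' (O x) ∈ nhds ((1 : G), y) := by
      apply ((hO1 x).preimage hcont').mem_nhds
      change (1 : G) • y ∈ O x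
      rw [one_smul]
      exact hD3 x hy
    exact h1
  obtain ⟨I, hI⟩ := nhds_one G {g | ∀ x ∈ t, ∀ y ∈ D x, g • y ∈ O x} hV
  -- enumerate the finite set
  let a : Fin I.card → X := fun i => (I.equivFin.symm i).1
  have hVa : ∀ g : G, (∀ i, (g : Equiv.Perm X) (a i) = a i) → ∀ x ∈ t, ∀ y ∈ D x, g • y ∈ O x := by
    intro g hg
    apply hI g
    intro x hx
    have := hg (I.equivFin ⟨x, hx⟩)
    simpa [a] using this
  obtain ⟨x0⟩ := (inferInstance : Nonempty K)
  have hcover : ∀ x : K, ∃ z ∈ t, x ∈ D z := by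
    intro x
    have : x ∈ ⋃ z ∈ t, D z := by rw [ht]; trivial
    simpa using this
  have htne : t.Nonempty := by
    obtain ⟨z, hz, _⟩ := hcover x0
    exact ⟨z, hz⟩
  obtain ⟨k, hk⟩ : ∃ k, t.card = k + 1 := ⟨t.card - 1, by
    have := htne.card_pos
    omega⟩
  let eqv : t ≃ Fin (k + 1) := t.equivFinOfCardEq hk
  -- the colouring
  have hcol : ∀ u : Fin I.card → X, ∃ r : Fin (k + 1), (∃ g : G, ∀ i, (g : Equiv.Perm X) (a i) = u i) →
      ∃ g : G, (∀ i, (g : Equiv.Perm X) (a i) = u i) ∧ g⁻¹ • x0 ∈ D (eqv.symm r).1 := by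
    intro u
    by_cases hu : ∃ g : G, ∀ i, (g : Equiv.Perm X) (a i) = u i
    · obtain ⟨g, hg⟩ := hu
      obtain ⟨z, hz, hzD⟩ := hcover (g⁻¹ • x0)
      refine ⟨eqv ⟨z, hz⟩, fun _ => ⟨g, hg, ?_⟩⟩
      rw [Equiv.symm_apply_apply]
      exact hzD
    · exact ⟨0, fun h => absurd h hu⟩
  choose c hc using hcol
  obtain ⟨α, hα, r, hr⟩ := ramsey hG a c
    (insert 1 (t.image (fun z => ((γ z)⁻¹ : G).1))) (by
      intro g hg
      rcases Finset.mem_insert.1 hg with rfl | hg
      · exact G.one_mem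
      · obtain ⟨z, _, rfl⟩ := Finset.mem_image.1 hg
        exact (γ z)⁻¹.2)
  set αG : G := ⟨α, hα⟩ with hαG
  set z : K := (eqv.symm r).1 with hz
  have hzt : z ∈ t := (eqv.symm r).2
  have h1 := hr 1 (Finset.mem_insert_self _ _)
  have h2 := hr ((γ z)⁻¹ : G).1 (Finset.mem_insert_of_mem (Finset.mem_image_of_mem _ hzt))
  obtain ⟨g, hg1, hg2⟩ := hc (fun i => α ((1 : Equiv.Perm X) (a i))) ⟨αG, fun i => rfl⟩
  obtain ⟨g', hg1', hg2'⟩ := hc (fun i => α (((γ z)⁻¹ : G).1 (a i))) ⟨αG * (γ z)⁻¹, fun i => rfl⟩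
  rw [h1] at hg2
  rw [h2] at hg2'
  -- first point
  have p1 : αG⁻¹ • x0 ∈ O z := by
    have h := hVa (αG⁻¹ * g) (by
      intro i
      change αG⁻¹.1 (g.1 (a i)) = a i
      rw [hg1 i]
      change αG⁻¹.1 (αG.1 (a i)) = a i
      simp) z hzt _ hg2
    rw [smul_smul] at h
    simpa using h
  have p2 : γ z • (αG⁻¹ • x0) ∈ O z := by
    have h := hVa (γ z * αG⁻¹ * g') (by
      intro i
      change (γ z).1 (αG⁻¹.1 (g'.1 (a i))) = a i
      rw [hg1' i]
      change (γ z).1 (αG⁻¹.1 (αG.1 ((γ z)⁻¹.1 (a i)))) = a i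
      simp) z hzt _ hg2'
    rw [smul_smul] at h
    rw [smul_smul]
    simpa using h
  exact hO3 z _ p1 p2

/-- A permutation group on a countable set (in particular, every closed one) is extremely amenable
if and only if it has the canonisation property. -/
theorem result (X : Type) [Countable X] (G : Subgroup (Equiv.Perm X)) :
    ExtremelyAmenable.{v} G ↔ Canonisation G :=
  ⟨forward G, backward G⟩

end Pool.Agent.Results.MP_6d0d7d_lc.CanonisationIff
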